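import Mathlib
set_option autoImplicit false

/-!
# H56/MI/Alg: countable algebras of sets and simple densities
-/

namespace Pool.Agent.H56.MI

open Set MeasureTheory
open scoped ENNReal

/-- an enumerated family of measurable sets, closed under complements, which is dense for every
finite measure -/
structure Alg (X : Type) [MeasurableSpace X] where
  /-- the sets -/
  A : ℕ → Set X
  mA : ∀ n, MeasurableSet (A n)
  compl : ∀ n, ∃ k, A k = (A n)ᶜ
  dense : ∀ (μ : Measure X) [IsFiniteMeasure μ] (s : Set X), MeasurableSet s → ∀ ε : ℝ, 0 < ε →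
    ∃ n, μ.real (symmDiff s (A n)) < ε

theorem exists_alg (X : Type) [m : MeasurableSpace X] [MeasurableSpace.CountablyGenerated X] :
    Nonempty (Alg X) := by
  let S := generateSetAlgebra (MeasurableSpace.countableGeneratingSet X)
  have hS : IsSetAlgebra S := isSetAlgebra_generateSetAlgebra
  have hc : S.Countable :=
    countable_generateSetAlgebra MeasurableSpace.countable_countableGeneratingSet
  have hg : m = MeasurableSpace.generateFrom S := by
    rw [generateFrom_generateSetAlgebra_eq, MeasurableSpace.generateFrom_countableGeneratingSet]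
  obtain ⟨A, hA⟩ := hc.exists_eq_range ⟨∅, hS.empty_mem⟩
  have hmem : ∀ n, A n ∈ S := fun n => by rw [hA]; exact mem_range_self n
  have hmeas : ∀ s ∈ S, MeasurableSet s := fun s hs => by
    rw [hg]; exact MeasurableSpace.measurableSet_generateFrom hs
  refine ⟨⟨A, fun n => hmeas _ (hmem n), fun n => ?_, fun μ _ s hs ε hε => ?_⟩⟩
  · have := hS.compl_mem (hmem n)
    rw [hA] at this
    obtain ⟨k, hk⟩ := this
    exact ⟨k, hk⟩
  · have hd := Measure.MeasureDense.of_generateFrom_isSetAlgebra_finite μ hS hg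
    obtain ⟨t, ht, hlt⟩ := hd.approx s hs (measure_ne_top _ _) ε hε
    rw [hA] at ht
    obtain ⟨k, rfl⟩ := ht
    refine ⟨k, ?_⟩
    rw [measureReal_def]
    exact (ENNReal.lt_ofReal_iff_toReal_lt (measure_ne_top _ _)).1 hlt

variable {X : Type} [MeasurableSpace X]

/-- the measure with the simple density given by a list of (set, weight) -/
noncomputable def msr (𝔸 : Alg X) (μ : Measure X) : List (ℕ × ℕ) → Measure X
  | [] => 0
  | p :: L => (p.2 : ℝ≥0∞) • μ.restrict (𝔸.A p.1) + msr 𝔸 μ L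

/-- the weights multiplied by `c` -/
def scl (c : ℕ) (L : List (ℕ × ℕ)) : List (ℕ × ℕ) := L.map fun p => (p.1, c * p.2)

theorem msr_append (𝔸 : Alg X) (μ : Measure X) (L L' : List (ℕ × ℕ)) :
    msr 𝔸 μ (L ++ L') = msr 𝔸 μ L + msr 𝔸 μ L' := by
  induction L with
  | nil => simp [msr]
  | cons p L ih => rw [List.cons_append, msr, msr, ih, add_assoc]

theorem msr_scl (𝔸 : Alg X) (μ : Measure X) (c : ℕ) (L : List (ℕ × ℕ)) :
    msr 𝔸 μ (scl c L) = (c : ℝ≥0∞) • msr 𝔸 μ L := by
  induction L with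
  | nil => simp [msr, scl]
  | cons p L ih =>
    have : scl c (p :: L) = (p.1, c * p.2) :: scl c L := rfl
    rw [this, msr, msr, ih, smul_add, smul_smul]
    push_cast
    rfl

instance msr_finite (𝔸 : Alg X) (μ : Measure X) [IsFiniteMeasure μ] (L : List (ℕ × ℕ)) :
    IsFiniteMeasure (msr 𝔸 μ L) := by
  induction L with
  | nil => rw [msr]; infer_instance
  | cons p L ih =>
    rw [msr]
    have : IsFiniteMeasure ((p.2 : ℝ≥0∞) • μ.restrict (𝔸.A p.1)) :=
      Measure.smul_finite _ (by simp)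
    infer_instance

theorem msr_ac (𝔸 : Alg X) (μ : Measure X) (L : List (ℕ × ℕ)) : msr 𝔸 μ L ≪ μ := by
  induction L with
  | nil => rw [msr]; exact Measure.AbsolutelyContinuous.zero μ
  | cons p L ih =>
    rw [msr]
    exact Measure.AbsolutelyContinuous.add_left
      ((Measure.smul_absolutelyContinuous).trans Measure.restrict_le_self.absolutelyContinuous) ih

theorem msr_meas {Ω : Type} [MeasurableSpace Ω] (𝔸 : Alg X) (μ : Ω → Measure X)
    (hμ : ∀ B, MeasurableSet B → Measurable fun ω => μ ω B) (L : List (ℕ × ℕ)) {B : Set X}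
    (hB : MeasurableSet B) : Measurable fun ω => msr 𝔸 (μ ω) L B := by
  induction L with
  | nil => simp [msr]
  | cons p L ih =>
    have : (fun ω => msr 𝔸 (μ ω) (p :: L) B) =
        fun ω => (p.2 : ℝ≥0∞) * μ ω (B ∩ 𝔸.A p.1) + msr 𝔸 (μ ω) L B := by
      funext ω
      rw [msr, Measure.add_apply, Measure.smul_apply, Measure.restrict_apply hB, smul_eq_mul]
    rw [this]
    exact ((hμ _ (hB.inter (𝔸.mA _))).const_mul _).add ih

/-- normalisation -/
noncomputable def nrm (μ ν : Measure X) : Measure X :=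
  if ν univ = 0 then (μ univ)⁻¹ • μ else (ν univ)⁻¹ • ν

/-- the probability measures with simple densities -/
noncomputable def pr (𝔸 : Alg X) (μ : Measure X) (L : List (ℕ × ℕ)) : Measure X :=
  nrm μ (msr 𝔸 μ L)

theorem pr_prob (𝔸 : Alg X) (μ : Measure X) [IsFiniteMeasure μ] (h0 : μ univ ≠ 0)
    (L : List (ℕ × ℕ)) : IsProbabilityMeasure (pr 𝔸 μ L) := by
  constructor
  rw [pr, nrm]
  split_ifs with h
  · rw [Measure.smul_apply, smul_eq_mul, ENNReal.inv_mul_cancel h0 (measure_ne_top _ _)]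
  · rw [Measure.smul_apply, smul_eq_mul, ENNReal.inv_mul_cancel h (measure_ne_top _ _)]

theorem pr_ac (𝔸 : Alg X) (μ : Measure X) (L : List (ℕ × ℕ)) : pr 𝔸 μ L ≪ μ := by
  rw [pr, nrm]
  split_ifs with h
  · exact Measure.smul_absolutelyContinuous
  · exact (Measure.smul_absolutelyContinuous).trans (msr_ac 𝔸 μ L)

theorem pr_meas {Ω : Type} [MeasurableSpace Ω] (𝔸 : Alg X) (μ : Ω → Measure X)
    (hμ : ∀ B, MeasurableSet B → Measurable fun ω => μ ω B) (L : List (ℕ × ℕ)) {B : Set X}
    (hB : MeasurableSet B) : Measurable fun ω => (pr 𝔸 (μ ω) L).real B := by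
  classical
  have e : (fun ω => (pr 𝔸 (μ ω) L).real B) = fun ω => (if msr 𝔸 (μ ω) L univ = 0 then
      (μ ω univ)⁻¹ * μ ω B else (msr 𝔸 (μ ω) L univ)⁻¹ * msr 𝔸 (μ ω) L B).toReal := by
    funext ω
    rw [measureReal_def, pr, nrm]
    split_ifs with h
    · rw [Measure.smul_apply, smul_eq_mul]
    · rw [Measure.smul_apply, smul_eq_mul]
  rw [e]
  refine Measurable.ennreal_toReal (Measurable.ite ?_ ?_ ?_)
  · exact (msr_meas 𝔸 μ hμ L MeasurableSet.univ) (measurableSet_singleton 0)
  · exact (hμ _ MeasurableSet.univ).inv.mul (hμ _ hB)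
  · exact (msr_meas 𝔸 μ hμ L MeasurableSet.univ).inv.mul (msr_meas 𝔸 μ hμ L hB)

end Pool.Agent.H56.MI
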