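import Pool.Agent.H56.MI.Dense
import Pool.Agent.H93.EO.Part3
set_option autoImplicit false

/-!
# H56/MI/Code: the code of a measure class
-/

namespace Pool.Agent.H56.MI

open Set MeasureTheory Pool.Agent.H93.EO
open scoped ENNReal BoundedContinuousFunction

variable {X : Type} [MeasurableSpace X]

/-- closeness on the algebra gives closeness on all measurable sets -/
theorem close_all (𝔸 : Alg X) (ν ν' : Measure X) [IsProbabilityMeasure ν]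
    [IsProbabilityMeasure ν'] {δ : ℝ} (h : ∀ n, |ν.real (𝔸.A n) - ν'.real (𝔸.A n)| ≤ δ)
    {B : Set X} (hB : MeasurableSet B) : |ν.real B - ν'.real B| ≤ δ := by
  refine le_of_forall_pos_le_add fun ε hε => ?_
  obtain ⟨n, hn⟩ := 𝔸.dense (ν + ν') B hB (ε / 2) (by positivity)
  have e : (ν + ν').real (symmDiff B (𝔸.A n)) =
      ν.real (symmDiff B (𝔸.A n)) + ν'.real (symmDiff B (𝔸.A n)) := by
    rw [measureReal_def, Measure.add_apply, ENNReal.toReal_add (measure_ne_top _ _)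
      (measure_ne_top _ _), measureReal_def, measureReal_def]
  rw [e] at hn
  have h1 := real_symm ν (s := B) (t := 𝔸.A n) (B := univ)
  have h2 := real_symm ν' (s := B) (t := 𝔸.A n) (B := univ)
  simp only [univ_inter] at h1 h2
  have h3 := h n
  rw [abs_le] at h1 h2 h3 ⊢
  constructor <;> linarith [h1.1, h1.2, h2.1, h2.2, h3.1, h3.2]

/-- a probability measure as a point of `ℓ^∞` -/
noncomputable def emb (𝔸 : Alg X) (ν : Measure X) [IsProbabilityMeasure ν] : ℕ →ᵇ ℝ :=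
  BoundedContinuousFunction.ofNormedAddCommGroup (fun n => ν.real (𝔸.A n))
    continuous_of_discreteTopology 1 (fun n => by
      rw [Real.norm_of_nonneg measureReal_nonneg]
      exact measureReal_le_one)

theorem emb_apply (𝔸 : Alg X) (ν : Measure X) [IsProbabilityMeasure ν] (n : ℕ) :
    emb 𝔸 ν n = ν.real (𝔸.A n) := rfl

/-- the distance of two probability measures -/
noncomputable def dd (𝔸 : Alg X) (ν ν' : Measure X) : ℝ :=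
  ⨆ n, |ν.real (𝔸.A n) - ν'.real (𝔸.A n)|

theorem dist_emb (𝔸 : Alg X) (ν ν' : Measure X) [IsProbabilityMeasure ν]
    [IsProbabilityMeasure ν'] : dist (emb 𝔸 ν) (emb 𝔸 ν') = dd 𝔸 ν ν' := by
  rw [BoundedContinuousFunction.dist_eq_iSup, dd]
  rfl

theorem abs_le_dd (𝔸 : Alg X) (ν ν' : Measure X) [IsProbabilityMeasure ν]
    [IsProbabilityMeasure ν'] (n : ℕ) : |ν.real (𝔸.A n) - ν'.real (𝔸.A n)| ≤ dd 𝔸 ν ν' := by
  rw [← dist_emb]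
  exact BoundedContinuousFunction.dist_coe_le_dist (f := emb 𝔸 ν) (g := emb 𝔸 ν') n

theorem dd_le (𝔸 : Alg X) (ν ν' : Measure X) {δ : ℝ}
    (h : ∀ n, |ν.real (𝔸.A n) - ν'.real (𝔸.A n)| ≤ δ) : dd 𝔸 ν ν' ≤ δ := ciSup_le h

/-- distances -/
noncomputable def cR (𝔸 : Alg X) (ℓ : ℕ → List (ℕ × ℕ)) (μ : Measure X) (i j : ℕ) : ℝ :=
  dd 𝔸 (pr 𝔸 μ (ℓ i)) (pr 𝔸 μ (ℓ j))

/-- indices of the measures which are large on a set -/
def cA (𝔸 : Alg X) (ℓ : ℕ → List (ℕ × ℕ)) (κ : ℕ → ℕ × ℚ) (μ : Measure X) : ℕ → Set ℕ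
  | 0 => univ
  | n + 1 => {i | ((κ n).2 : ℝ) < (pr 𝔸 μ (ℓ i)).real (𝔸.A (κ n).1)}

theorem cR_isPM (𝔸 : Alg X) (ℓ : ℕ → List (ℕ × ℕ)) (μ : Measure X) [IsFiniteMeasure μ]
    (h0 : μ univ ≠ 0) : IsPM (cR 𝔸 ℓ μ) := by
  have hp : ∀ L, IsProbabilityMeasure (pr 𝔸 μ L) := pr_prob 𝔸 μ h0
  have e : ∀ i j, cR 𝔸 ℓ μ i j = dist (emb 𝔸 (pr 𝔸 μ (ℓ i))) (emb 𝔸 (pr 𝔸 μ (ℓ j))) :=
    fun i j => (dist_emb 𝔸 _ _).symm
  refine ⟨fun i j => ?_, fun i j => ?_, fun i => ?_, fun i j => ?_, fun i j k => ?_⟩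
  · rw [e]; exact dist_nonneg
  · refine dd_le 𝔸 _ _ fun n => ?_
    have h1 : 0 ≤ (pr 𝔸 μ (ℓ i)).real (𝔸.A n) := measureReal_nonneg
    have h2 : (pr 𝔸 μ (ℓ i)).real (𝔸.A n) ≤ 1 := measureReal_le_one
    have h3 : 0 ≤ (pr 𝔸 μ (ℓ j)).real (𝔸.A n) := measureReal_nonneg
    have h4 : (pr 𝔸 μ (ℓ j)).real (𝔸.A n) ≤ 1 := measureReal_le_one
    rw [abs_le]
    constructor <;> linarith
  · rw [e]; exact dist_self _
  · rw [e, e]; exact dist_comm _ _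
  · rw [e, e, e]; exact dist_triangle _ _ _

/-- equivalent measures have the same code -/
theorem same_of_equiv (𝔸 : Alg X) {ℓ : ℕ → List (ℕ × ℕ)} (hℓ : Function.Surjective ℓ)
    (κ : ℕ → ℕ × ℚ) (μ μ' : Measure X) [IsFiniteMeasure μ] [IsFiniteMeasure μ']
    (h0 : μ univ ≠ 0) (h0' : μ' univ ≠ 0) (h1 : μ ≪ μ') (h2 : μ' ≪ μ) :
    SameCode (cR 𝔸 ℓ μ) (cR 𝔸 ℓ μ') (cA 𝔸 ℓ κ μ) (cA 𝔸 ℓ κ μ') := by
  have hp : ∀ L, IsProbabilityMeasure (pr 𝔸 μ L) := pr_prob 𝔸 μ h0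
  have hp' : ∀ L, IsProbabilityMeasure (pr 𝔸 μ' L) := pr_prob 𝔸 μ' h0'
  have key : ∀ (μ μ' : Measure X) [IsFiniteMeasure μ] [IsFiniteMeasure μ']
      (hp : ∀ L, IsProbabilityMeasure (pr 𝔸 μ L)) (hp' : ∀ L, IsProbabilityMeasure (pr 𝔸 μ' L)),
      μ ≪ μ' → ∀ n, (fun i => emb 𝔸 (pr 𝔸 μ (ℓ i))) '' cA 𝔸 ℓ κ μ n ⊆
        closure ((fun i => emb 𝔸 (pr 𝔸 μ' (ℓ i))) '' cA 𝔸 ℓ κ μ' n) := by
    intro μ μ' _ _ hp hp' hac n
    rintro _ ⟨i, hi, rfl⟩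
    rw [Metric.mem_closure_iff]
    intro ε hε
    have hνac : pr 𝔸 μ (ℓ i) ≪ μ' := (pr_ac 𝔸 μ (ℓ i)).trans hac
    cases n with
    | zero =>
      obtain ⟨L, hL⟩ := dense_pr 𝔸 μ' (pr 𝔸 μ (ℓ i)) hνac (ε := ε / 2) (by positivity)
      obtain ⟨j, rfl⟩ := hℓ L
      refine ⟨_, ⟨j, mem_univ j, rfl⟩, ?_⟩
      rw [dist_emb]
      exact lt_of_le_of_lt (dd_le 𝔸 _ _ fun n => hL _ (𝔸.mA n)) (by linarith)
    | succ n =>
      have hi' : ((κ n).2 : ℝ) < (pr 𝔸 μ (ℓ i)).real (𝔸.A (κ n).1) := hi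
      obtain ⟨η, hη⟩ : ∃ η : ℝ, η = min (ε / 2)
          (((pr 𝔸 μ (ℓ i)).real (𝔸.A (κ n).1) - (κ n).2) / 2) := ⟨_, rfl⟩
      have hη0 : 0 < η := by
        rw [hη]; exact lt_min (by positivity) (by linarith)
      have hη1 : η ≤ ε / 2 := by rw [hη]; exact min_le_left _ _
      have hη2 : η ≤ ((pr 𝔸 μ (ℓ i)).real (𝔸.A (κ n).1) - (κ n).2) / 2 := by
        rw [hη]; exact min_le_right _ _
      obtain ⟨L, hL⟩ := dense_pr 𝔸 μ' (pr 𝔸 μ (ℓ i)) hνac hη0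
      obtain ⟨j, rfl⟩ := hℓ L
      refine ⟨_, ⟨j, ?_, rfl⟩, ?_⟩
      · have h3 := hL _ (𝔸.mA (κ n).1)
        rw [abs_le] at h3
        change ((κ n).2 : ℝ) < (pr 𝔸 μ' (ℓ j)).real (𝔸.A (κ n).1)
        linarith [h3.2]
      · rw [dist_emb]
        exact lt_of_le_of_lt (dd_le 𝔸 _ _ fun n => hL _ (𝔸.mA n)) (by linarith)
  refine ⟨ℕ →ᵇ ℝ, inferInstance, inferInstance, fun i => emb 𝔸 (pr 𝔸 μ (ℓ i)),
    fun i => emb 𝔸 (pr 𝔸 μ' (ℓ i)), fun i j => dist_emb 𝔸 _ _, fun i j => dist_emb 𝔸 _ _,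
    fun n => ?_⟩
  refine Subset.antisymm (closure_minimal ?_ isClosed_closure) (closure_minimal ?_ isClosed_closure)
  · exact key μ μ' hp hp' h1 n
  · exact key μ' μ hp' hp h2 n

/-- measures with the same code are not mutually singular -/
theorem ac_of_same (𝔸 : Alg X) {ℓ : ℕ → List (ℕ × ℕ)}
    {κ : ℕ → ℕ × ℚ} (hκ : Function.Surjective κ) (μ μ' : Measure X) [IsFiniteMeasure μ]
    [IsFiniteMeasure μ'] (h0 : μ univ ≠ 0) (h0' : μ' univ ≠ 0)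
    (h : SameCode (cR 𝔸 ℓ μ) (cR 𝔸 ℓ μ') (cA 𝔸 ℓ κ μ) (cA 𝔸 ℓ κ μ')) (i : ℕ) :
    pr 𝔸 μ (ℓ i) ≪ μ' := by
  have hp : ∀ L, IsProbabilityMeasure (pr 𝔸 μ L) := pr_prob 𝔸 μ h0
  have hp' : ∀ L, IsProbabilityMeasure (pr 𝔸 μ' L) := pr_prob 𝔸 μ' h0'
  obtain ⟨M, _, _, c, c', hc, hc', hcl⟩ := h
  have main : ∀ δ : ℝ, 0 < δ → ∃ j, ∀ n,
      |(pr 𝔸 μ (ℓ i)).real (𝔸.A n) - (pr 𝔸 μ' (ℓ j)).real (𝔸.A n)| ≤ 2 * δ := by
    intro δ hδ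
    have h1 : c i ∈ closure (c' '' cA 𝔸 ℓ κ μ' 0) := by
      rw [← hcl 0]
      exact subset_closure ⟨i, mem_univ i, rfl⟩
    obtain ⟨_, ⟨j, _, rfl⟩, hj⟩ := Metric.mem_closure_iff.1 h1 δ hδ
    have low : ∀ n, (pr 𝔸 μ (ℓ i)).real (𝔸.A n) - 2 * δ ≤ (pr 𝔸 μ' (ℓ j)).real (𝔸.A n) := by
      intro n
      by_contra hcon
      push Not at hcon
      obtain ⟨q', hq1', hq2'⟩ := exists_rat_btwn
        (show (pr 𝔸 μ' (ℓ j)).real (𝔸.A n) + 2 * δ < (pr 𝔸 μ (ℓ i)).real (𝔸.A n) by linarith)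
      obtain ⟨k', hk'⟩ := hκ (n, q')
      have h2 : c i ∈ closure (c' '' cA 𝔸 ℓ κ μ' (k' + 1)) := by
        rw [← hcl (k' + 1)]
        refine subset_closure ⟨i, ?_, rfl⟩
        change ((κ k').2 : ℝ) < (pr 𝔸 μ (ℓ i)).real (𝔸.A (κ k').1)
        rw [hk']
        exact hq2'
      obtain ⟨_, ⟨m, hm, rfl⟩, hmd⟩ := Metric.mem_closure_iff.1 h2 δ hδ
      have hm' : ((κ k').2 : ℝ) < (pr 𝔸 μ' (ℓ m)).real (𝔸.A (κ k').1) := hm
      rw [hk'] at hm'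
      have h3 : dist (c' m) (c' j) < 2 * δ := by
        have := dist_triangle (c' m) (c i) (c' j)
        rw [dist_comm (c' m) (c i)] at this
        linarith
      rw [hc'] at h3
      have h4 := (abs_le_dd 𝔸 (pr 𝔸 μ' (ℓ m)) (pr 𝔸 μ' (ℓ j)) n).trans_lt h3
      rw [abs_lt] at h4
      have h5 : ((q' : ℚ) : ℝ) < (pr 𝔸 μ' (ℓ m)).real (𝔸.A n) := hm'
      linarith [h4.1, h4.2]
    refine ⟨j, fun n => ?_⟩
    obtain ⟨n', hn'⟩ := 𝔸.compl n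
    have l1 := low n
    have l2 := low n'
    rw [hn', probReal_compl_eq_one_sub (𝔸.mA n), probReal_compl_eq_one_sub (𝔸.mA n)] at l2
    rw [abs_le]
    constructor <;> linarith
  refine Measure.AbsolutelyContinuous.mk fun B hB hB0 => ?_
  by_contra hne
  have hpos : 0 < (pr 𝔸 μ (ℓ i)).real B := by
    rw [measureReal_def]
    exact ENNReal.toReal_pos hne (measure_ne_top _ _)
  obtain ⟨j, hj⟩ := main ((pr 𝔸 μ (ℓ i)).real B / 4) (by positivity)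
  have h1 := close_all 𝔸 _ _ hj hB
  have h2 : (pr 𝔸 μ' (ℓ j)).real B = 0 := by
    rw [measureReal_def, pr_ac 𝔸 μ' (ℓ j) hB0, ENNReal.toReal_zero]
  rw [h2, sub_zero, abs_of_pos hpos] at h1
  linarith

end Pool.Agent.H56.MI
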