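import Pool.Agent.H56.MI.Alg
set_option autoImplicit false

/-!
# H56/MI/Dense: simple densities are dense, uniformly on sets
-/

namespace Pool.Agent.H56.MI

open Set MeasureTheory
open scoped ENNReal

variable {X : Type} [MeasurableSpace X]

theorem real_symm (μ : Measure X) [IsFiniteMeasure μ] {s t B : Set X} :
    |μ.real (B ∩ s) - μ.real (B ∩ t)| ≤ μ.real (symmDiff s t) := by
  have key : ∀ s t : Set X, μ.real (B ∩ s) - μ.real (B ∩ t) ≤ μ.real (symmDiff s t) := by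
    intro s t
    have h1 : B ∩ s ⊆ (B ∩ t) ∪ symmDiff s t := by
      rintro x ⟨hB, hs⟩
      by_cases ht : x ∈ t
      · exact Or.inl ⟨hB, ht⟩
      · exact Or.inr (Or.inl ⟨hs, ht⟩)
    have h2 := (measureReal_mono h1 (measure_ne_top μ _)).trans (measureReal_union_le _ _)
    linarith
  rw [abs_le]
  constructor
  · have := key t s
    rw [symmDiff_comm] at this
    linarith
  · exact key s t

/-- the set function of `f` is approximated by simple densities -/
def App (𝔸 : Alg X) (μ : Measure X) (f : X → ℝ≥0∞) : Prop :=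
  ∀ ε : ℝ, 0 < ε → ∃ (L : List (ℕ × ℕ)) (N : ℕ), 0 < N ∧ ∀ B, MeasurableSet B →
    |(∫⁻ x in B, f x ∂μ).toReal - (msr 𝔸 μ L).real B / N| ≤ ε

theorem app_of (𝔸 : Alg X) (μ : Measure X) [IsFiniteMeasure μ] {f : X → ℝ≥0∞}
    (hf : Measurable f) : ∫⁻ x, f x ∂μ ≠ ∞ → App 𝔸 μ f := by
  refine Measurable.ennreal_induction (motive := fun f => ∫⁻ x, f x ∂μ ≠ ∞ → App 𝔸 μ f)
    ?_ ?_ ?_ hf
  · intro c s hs hfin ε hε
    have e : ∀ B, MeasurableSet B → ∫⁻ x in B, s.indicator (fun _ => c) x ∂μ = c * μ (B ∩ s) := by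
      intro B hB
      rw [lintegral_indicator_const hs, Measure.restrict_apply hs, inter_comm]
    by_cases hc : c = ∞
    · refine ⟨[], 1, one_pos, fun B hB => ?_⟩
      have h1 : μ s = 0 := by
        rw [lintegral_indicator_const hs, hc] at hfin
        by_contra h
        exact hfin (ENNReal.top_mul h)
      have h2 : μ (B ∩ s) = 0 := measure_mono_null inter_subset_right h1
      rw [e B hB, h2]
      simp [msr, hε.le]
    · obtain ⟨r, hr⟩ : ∃ r : ℝ, r = c.toReal := ⟨_, rfl⟩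
      have hr0 : 0 ≤ r := by rw [hr]; exact ENNReal.toReal_nonneg
      obtain ⟨N, hN⟩ := exists_nat_gt (2 * μ.real univ / ε)
      have hN0 : (0 : ℝ) < N := lt_of_le_of_lt (by positivity) hN
      have hNpos : 0 < N := by exact_mod_cast hN0
      obtain ⟨n, hn⟩ := 𝔸.dense μ s hs (ε / (2 * (r + 1))) (by positivity)
      refine ⟨[(n, ⌊r * N⌋₊)], N, hNpos, fun B hB => ?_⟩
      have hk1 : (⌊r * N⌋₊ : ℝ) ≤ r * N := Nat.floor_le (by positivity)
      have hk2 : r * N < ⌊r * N⌋₊ + 1 := Nat.lt_floor_add_one _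
      obtain ⟨k, hk⟩ : ∃ k : ℝ, k = (⌊r * N⌋₊ : ℝ) / N := ⟨_, rfl⟩
      have hkr : k ≤ r := by rw [hk, div_le_iff₀ hN0]; exact hk1
      have hk0 : 0 ≤ k := by rw [hk]; positivity
      have hrk : r - k ≤ 1 / N := by
        rw [hk, sub_le_iff_le_add, ← add_div, le_div_iff₀ hN0]
        linarith
      have e1 : (∫⁻ x in B, s.indicator (fun _ => c) x ∂μ).toReal = r * μ.real (B ∩ s) := by
        rw [e B hB, ENNReal.toReal_mul, measureReal_def, hr]
      have e2 : (msr 𝔸 μ [(n, ⌊r * N⌋₊)]).real B / N = k * μ.real (B ∩ 𝔸.A n) := by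
        rw [hk, measureReal_def, msr, msr, add_zero, Measure.smul_apply,
          Measure.restrict_apply hB, smul_eq_mul, ENNReal.toReal_mul, ENNReal.toReal_natCast,
          measureReal_def]
        ring
      rw [e1, e2]
      have hs1 := real_symm μ (s := s) (t := 𝔸.A n) (B := B)
      have hs2 : 0 ≤ μ.real (B ∩ s) := measureReal_nonneg
      have hs3 : μ.real (B ∩ s) ≤ μ.real univ := measureReal_mono (subset_univ _) (measure_ne_top _ _)
      have h4 : r * μ.real (B ∩ s) - k * μ.real (B ∩ 𝔸.A n) =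
          (r - k) * μ.real (B ∩ s) + k * (μ.real (B ∩ s) - μ.real (B ∩ 𝔸.A n)) := by ring
      rw [h4]
      have h5 : |(r - k) * μ.real (B ∩ s)| ≤ ε / 2 := by
        rw [abs_of_nonneg (mul_nonneg (by linarith) hs2)]
        have h6 : (r - k) * μ.real (B ∩ s) ≤ 1 / N * μ.real univ :=
          mul_le_mul hrk hs3 hs2 (by positivity)
        have h7 : 1 / N * μ.real univ ≤ ε / 2 := by
          rw [div_lt_iff₀ hε] at hN
          rw [div_mul_eq_mul_div, one_mul, div_le_iff₀ hN0]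
          linarith
        linarith
      have h8 : |k * (μ.real (B ∩ s) - μ.real (B ∩ 𝔸.A n))| ≤ ε / 2 := by
        rw [abs_mul, abs_of_nonneg hk0]
        have h9 : k * |μ.real (B ∩ s) - μ.real (B ∩ 𝔸.A n)| ≤ r * (ε / (2 * (r + 1))) :=
          mul_le_mul hkr (hs1.trans hn.le) (abs_nonneg _) hr0
        have h10 : r * (ε / (2 * (r + 1))) ≤ ε / 2 := by
          rw [mul_div_assoc', div_le_div_iff₀ (by positivity) (by positivity)]
          nlinarith
        linarith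
      exact (abs_add_le _ _).trans (by linarith)
  · intro f g _ hf hg ihf ihg hfin ε hε
    have hadd : ∀ B : Set X, ∫⁻ x in B, (f + g) x ∂μ = ∫⁻ x in B, f x ∂μ + ∫⁻ x in B, g x ∂μ :=
      fun B => by
        simp only [Pi.add_apply]
        exact lintegral_add_left hf _
    have hfin2 : ∫⁻ x, f x ∂μ + ∫⁻ x, g x ∂μ ≠ ∞ := by
      have := hadd univ
      simp only [Measure.restrict_univ] at this
      rw [← this]
      exact hfin
    have hf1 : ∫⁻ x, f x ∂μ ≠ ∞ := fun h => hfin2 (by rw [h, top_add])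
    have hg1 : ∫⁻ x, g x ∂μ ≠ ∞ := fun h => hfin2 (by rw [h, add_top])
    obtain ⟨L1, N1, hN1, h1⟩ := ihf hf1 (ε / 2) (by positivity)
    obtain ⟨L2, N2, hN2, h2⟩ := ihg hg1 (ε / 2) (by positivity)
    refine ⟨scl N2 L1 ++ scl N1 L2, N1 * N2, Nat.mul_pos hN1 hN2, fun B hB => ?_⟩
    have hN1' : (0 : ℝ) < N1 := by exact_mod_cast hN1
    have hN2' : (0 : ℝ) < N2 := by exact_mod_cast hN2
    have hb1 : ∫⁻ x in B, f x ∂μ ≠ ∞ := ne_top_of_le_ne_top hf1 (setLIntegral_le_lintegral _ _)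
    have hb2 : ∫⁻ x in B, g x ∂μ ≠ ∞ := ne_top_of_le_ne_top hg1 (setLIntegral_le_lintegral _ _)
    have e1 : (∫⁻ x in B, (f + g) x ∂μ).toReal =
        (∫⁻ x in B, f x ∂μ).toReal + (∫⁻ x in B, g x ∂μ).toReal := by
      rw [hadd, ENNReal.toReal_add hb1 hb2]
    have e2 : (msr 𝔸 μ (scl N2 L1 ++ scl N1 L2)).real B / ((N1 * N2 : ℕ) : ℝ) =
        (msr 𝔸 μ L1).real B / N1 + (msr 𝔸 μ L2).real B / N2 := by
      rw [msr_append, msr_scl, msr_scl, measureReal_def, Measure.add_apply, Measure.smul_apply,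
        Measure.smul_apply, smul_eq_mul, smul_eq_mul, ENNReal.toReal_add
          (ENNReal.mul_ne_top (by simp) (measure_ne_top _ _))
          (ENNReal.mul_ne_top (by simp) (measure_ne_top _ _)),
        ENNReal.toReal_mul, ENNReal.toReal_mul, ENNReal.toReal_natCast, ENNReal.toReal_natCast,
        ← measureReal_def, ← measureReal_def]
      push_cast
      field_simp
    rw [e1, e2]
    have := abs_add_le ((∫⁻ x in B, f x ∂μ).toReal - (msr 𝔸 μ L1).real B / N1)
      ((∫⁻ x in B, g x ∂μ).toReal - (msr 𝔸 μ L2).real B / N2)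
    have e3 : (∫⁻ x in B, f x ∂μ).toReal + (∫⁻ x in B, g x ∂μ).toReal -
        ((msr 𝔸 μ L1).real B / N1 + (msr 𝔸 μ L2).real B / N2) =
        (∫⁻ x in B, f x ∂μ).toReal - (msr 𝔸 μ L1).real B / N1 +
        ((∫⁻ x in B, g x ∂μ).toReal - (msr 𝔸 μ L2).real B / N2) := by ring
    rw [e3]
    linarith [h1 B hB, h2 B hB]
  · intro f hf hmono ih hfin ε hε
    have hle : ∀ n (B : Set X), ∫⁻ x in B, f n x ∂μ ≤ ∫⁻ x in B, (⨆ n, f n x) ∂μ := fun n B =>
      lintegral_mono fun x => le_iSup (fun n => f n x) n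
    have hsup : ∫⁻ x, (⨆ n, f n x) ∂μ = ⨆ n, ∫⁻ x, f n x ∂μ := lintegral_iSup hf hmono
    have hfin' : (⨆ n, ∫⁻ x, f n x ∂μ) ≠ ∞ := by rw [← hsup]; exact hfin
    obtain ⟨n, hn⟩ : ∃ n, (∫⁻ x, (⨆ n, f n x) ∂μ).toReal - ε / 2 ≤ (∫⁻ x, f n x ∂μ).toReal := by
      by_contra hcon
      push Not at hcon
      have h1 : ∀ n, ∫⁻ x, f n x ∂μ ≤
          ENNReal.ofReal ((∫⁻ x, (⨆ n, f n x) ∂μ).toReal - ε / 2) := by
        intro n
        have hne : ∫⁻ x, f n x ∂μ ≠ ∞ := by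
          refine ne_top_of_le_ne_top hfin ?_
          exact lintegral_mono fun x => le_iSup (fun n => f n x) n
        rw [← ENNReal.ofReal_toReal hne]
        exact ENNReal.ofReal_le_ofReal (hcon n).le
      have h2 : ∫⁻ x, (⨆ n, f n x) ∂μ ≤
          ENNReal.ofReal ((∫⁻ x, (⨆ n, f n x) ∂μ).toReal - ε / 2) := by
        conv_lhs => rw [hsup]
        exact iSup_le h1
      have h3 := ENNReal.toReal_mono ENNReal.ofReal_ne_top h2
      have h0 := lt_of_le_of_lt ENNReal.toReal_nonneg (hcon 0)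
      rw [ENNReal.toReal_ofReal h0.le] at h3
      linarith
    have hnf : ∫⁻ x, f n x ∂μ ≠ ∞ :=
      ne_top_of_le_ne_top hfin (lintegral_mono fun x => le_iSup (fun n => f n x) n)
    obtain ⟨L, N, hN, hL⟩ := ih n hnf (ε / 2) (by positivity)
    refine ⟨L, N, hN, fun B hB => ?_⟩
    have hsplit : ∀ g : X → ℝ≥0∞, ∫⁻ x, g x ∂μ = ∫⁻ x in B, g x ∂μ + ∫⁻ x in Bᶜ, g x ∂μ :=
      fun g => (lintegral_add_compl g hB).symm
    have hBf : ∫⁻ x in B, (⨆ n, f n x) ∂μ ≠ ∞ :=
      ne_top_of_le_ne_top hfin (setLIntegral_le_lintegral _ _)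
    have hBcf : ∫⁻ x in Bᶜ, (⨆ n, f n x) ∂μ ≠ ∞ :=
      ne_top_of_le_ne_top hfin (setLIntegral_le_lintegral _ _)
    have hBn : ∫⁻ x in B, f n x ∂μ ≠ ∞ := ne_top_of_le_ne_top hBf (hle n B)
    have hBcn : ∫⁻ x in Bᶜ, f n x ∂μ ≠ ∞ := ne_top_of_le_ne_top hBcf (hle n Bᶜ)
    have t1 := congrArg ENNReal.toReal (hsplit fun x => ⨆ n, f n x)
    have t2 := congrArg ENNReal.toReal (hsplit (f n))
    rw [ENNReal.toReal_add hBf hBcf] at t1
    rw [ENNReal.toReal_add hBn hBcn] at t2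
    have m1 := ENNReal.toReal_mono hBf (hle n B)
    have m2 := ENNReal.toReal_mono hBcf (hle n Bᶜ)
    have h5 := hL B hB
    rw [abs_le] at h5 ⊢
    constructor <;> linarith [h5.1, h5.2]

/-- probability measures with simple densities are dense -/
theorem dense_pr (𝔸 : Alg X) (μ ν : Measure X) [IsFiniteMeasure μ] [IsProbabilityMeasure ν]
    (h : ν ≪ μ) {ε : ℝ} (hε : 0 < ε) : ∃ L, ∀ B, MeasurableSet B →
      |ν.real B - (pr 𝔸 μ L).real B| ≤ ε := by
  have hd : μ.withDensity (ν.rnDeriv μ) = ν := Measure.withDensity_rnDeriv_eq ν μ h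
  have hm : Measurable (ν.rnDeriv μ) := Measure.measurable_rnDeriv ν μ
  have hν : ∀ B, MeasurableSet B → (∫⁻ x in B, ν.rnDeriv μ x ∂μ).toReal = ν.real B := by
    intro B hB
    rw [← withDensity_apply _ hB, hd, measureReal_def]
  have hfin : ∫⁻ x, ν.rnDeriv μ x ∂μ ≠ ∞ := by
    have : ∫⁻ x, ν.rnDeriv μ x ∂μ = ν univ := by
      rw [← setLIntegral_univ, ← withDensity_apply _ MeasurableSet.univ, hd]
    rw [this]
    exact measure_ne_top _ _
  obtain ⟨δ, hδ⟩ : ∃ δ : ℝ, δ = min (ε / 2) (1 / 2) := ⟨_, rfl⟩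
  have hδ0 : 0 < δ := by rw [hδ]; exact lt_min (by positivity) (by norm_num)
  have hδ1 : δ ≤ ε / 2 := by rw [hδ]; exact min_le_left _ _
  have hδ2 : δ ≤ 1 / 2 := by rw [hδ]; exact min_le_right _ _
  obtain ⟨L, N, hN, hL⟩ := app_of 𝔸 μ hm hfin δ hδ0
  have hN' : (0 : ℝ) < N := by exact_mod_cast hN
  refine ⟨L, fun B hB => ?_⟩
  have h1 := hL univ MeasurableSet.univ
  have h2 := hL B hB
  rw [hν _ MeasurableSet.univ, probReal_univ] at h1
  rw [hν _ hB] at h2
  obtain ⟨m, hm'⟩ : ∃ m : ℝ, m = (msr 𝔸 μ L).real univ := ⟨_, rfl⟩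
  obtain ⟨b, hb'⟩ : ∃ b : ℝ, b = (msr 𝔸 μ L).real B := ⟨_, rfl⟩
  rw [← hm'] at h1
  rw [← hb'] at h2
  rw [abs_le] at h1
  have hmN : 0 < m / N := by linarith [h1.2]
  have hm0 : 0 < m := by
    by_contra hcon
    push Not at hcon
    have : m / N ≤ 0 := div_nonpos_of_nonpos_of_nonneg hcon hN'.le
    linarith
  have hne : msr 𝔸 μ L univ ≠ 0 := by
    intro h0
    rw [hm', measureReal_def, h0] at hm0
    simp at hm0
  have hb0 : 0 ≤ b := by rw [hb']; exact measureReal_nonneg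
  have hbm : b ≤ m := by
    rw [hb', hm']
    exact measureReal_mono (subset_univ _) (measure_ne_top _ _)
  have hpr : (pr 𝔸 μ L).real B = b / m := by
    rw [measureReal_def, pr, nrm, if_neg hne, Measure.smul_apply, smul_eq_mul, ENNReal.toReal_mul,
      ENNReal.toReal_inv, ← measureReal_def, ← measureReal_def, hb', hm']
    ring
  rw [hpr]
  have h3 : |b / N - b / m| ≤ δ := by
    have e : b / N - b / m = b / m * (m / N - 1) := by field_simp
    rw [e, abs_mul]
    have h4 : |b / m| ≤ 1 := by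
      rw [abs_of_nonneg (by positivity), div_le_one hm0]
      exact hbm
    have h5 : |m / N - 1| ≤ δ := by
      rw [abs_le]
      constructor <;> linarith [h1.1, h1.2]
    calc |b / m| * |m / N - 1| ≤ 1 * δ := mul_le_mul h4 h5 (abs_nonneg _) zero_le_one
      _ = δ := one_mul _
  have h6 : ν.real B - b / m = (ν.real B - b / N) + (b / N - b / m) := by ring
  rw [h6]
  refine (abs_add_le _ _).trans ?_
  linarith

end Pool.Agent.H56.MI
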