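import Mathlib
set_option autoImplicit false

/-!
# H56/MI/Grp: orbits of locally compact groups carry measure ideals
-/

namespace Pool.Agent.H56.MI

open Set MeasureTheory
open scoped ENNReal

theorem exists_quasi (H : Type) [Group H] [TopologicalSpace H] [IsTopologicalGroup H]
    [LocallyCompactSpace H] [SecondCountableTopology H] [MeasurableSpace H] [BorelSpace H] :
    ∃ m : Measure H, IsProbabilityMeasure m ∧
      ∀ (g : H) (B : Set H), MeasurableSet B → m B = 0 → m ((fun h => h * g) ⁻¹' B) = 0 := by
  let r : Measure H := (Measure.haar : Measure H).inv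
  have hr : r ≠ 0 := by
    intro h0
    have h1 : (Measure.haar : Measure H) univ = 0 := by
      have : r univ = (Measure.haar : Measure H) univ := by
        change (Measure.haar : Measure H).inv univ = _
        rw [Measure.inv_apply, inv_univ]
      rw [← this, h0]
      rfl
    exact (Measure.measure_univ_ne_zero.2 (NeZero.ne (Measure.haar : Measure H))) h1
  have : NeZero r := ⟨hr⟩
  refine ⟨r.toFinite, inferInstance, fun g B hB h0 => ?_⟩
  have h1 : r B = 0 := (absolutelyContinuous_toFinite r) h0
  have h2 : r ((fun h => h * g) ⁻¹' B) = 0 := by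
    rw [measure_preimage_mul_right]; exact h1
  exact (toFinite_absolutelyContinuous r) h2

theorem main_grp (X : Type) [MeasurableSpace X] (H : Type) [Group H] [TopologicalSpace H]
    [IsTopologicalGroup H] [LocallyCompactSpace H] [SecondCountableTopology H] [MeasurableSpace H]
    [BorelSpace H] [MulAction H X] [MeasurableSMul₂ H X]
    (hE : MeasurableSet {p : X × X | ∃ h : H, h • p.1 = p.2}) :
    ∃ ε : X → Measure X, Measurable ε ∧ (∀ x, IsProbabilityMeasure (ε x)) ∧
      (∀ x, ε x {y | ∃ h : H, h • x = y} = 1) ∧
      ∀ x x', (∃ h : H, h • x = x') → ∀ B, MeasurableSet B → ε x B = 0 → ε x' B = 0 := by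
  obtain ⟨m, hm, hq⟩ := exists_quasi H
  have h1 : ∀ x : X, Measurable fun h : H => h • x := fun x => measurable_id.smul_const x
  refine ⟨fun x => m.map fun h => h • x, ?_, ?_, ?_, ?_⟩
  · refine Measure.measurable_of_measurable_coe _ fun B hB => ?_
    have h2 : Measurable fun p : X × H => p.2 • p.1 := measurable_snd.smul measurable_fst
    have e : (fun x => m.map (fun h => h • x) B) =
        fun x => m (Prod.mk x ⁻¹' ((fun p : X × H => p.2 • p.1) ⁻¹' B)) := by
      funext x
      rw [Measure.map_apply (h1 x) hB]
      rfl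
    rw [e]
    exact measurable_measure_prodMk_left (h2 hB)
  · intro x
    exact Measure.isProbabilityMeasure_map (h1 x).aemeasurable
  · intro x
    have h3 : MeasurableSet {y | ∃ h : H, h • x = y} := measurable_prodMk_left hE
    change (m.map fun h => h • x) {y | ∃ h : H, h • x = y} = 1
    rw [Measure.map_apply (h1 x) h3]
    have : (fun h : H => h • x) ⁻¹' {y | ∃ h : H, h • x = y} = univ := by
      ext h
      exact ⟨fun _ => mem_univ h, fun _ => ⟨h, rfl⟩⟩
    rw [this, measure_univ]
  · rintro x _ ⟨g, rfl⟩ B hB h0
    rw [Measure.map_apply (h1 _) hB] at h0 ⊢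
    have e : (fun h : H => h • g • x) ⁻¹' B = (fun h => h * g) ⁻¹' ((fun h => h • x) ⁻¹' B) := by
      ext h
      simp [mul_smul]
    rw [e]
    exact hq g _ ((h1 x) hB) h0

end Pool.Agent.H56.MI
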