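import Pool.Agent.H56.MI.Main
import Pool.Agent.H56.MI.Grp
set_option autoImplicit false

/-!
# H56/MI/Fin: the group version
-/

namespace Pool.Agent.H56.MI

open Set MeasureTheory
open scoped ENNReal

/-- `F` is Borel reducible to the orbit equivalence relation of a continuous action of a Polish
group on a Polish space -/
def RedPolish (X : Type) [MeasurableSpace X] (F : X → X → Prop) : Prop :=
  ∃ (G Z : Type) (_ : TopologicalSpace G) (_ : Group G) (_ : IsTopologicalGroup G)
    (_ : PolishSpace G) (_ : TopologicalSpace Z) (_ : PolishSpace Z) (_ : MeasurableSpace Z)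
    (_ : BorelSpace Z) (_ : MulAction G Z) (_ : ContinuousSMul G Z) (f : X → Z),
    Measurable f ∧ ∀ x x' : X, F x x' ↔ ∃ g : G, g • f x = f x'

theorem main_lc (X : Type) [MeasurableSpace X] [StandardBorelSpace X] (H : Type) [Group H]
    [TopologicalSpace H] [IsTopologicalGroup H] [LocallyCompactSpace H] [SecondCountableTopology H]
    [MeasurableSpace H] [BorelSpace H] [MulAction H X] [MeasurableSMul₂ H X] (F : Setoid X)
    (hHF : ∀ (h : H) (x : X), F x (h • x))
    (hE : MeasurableSet {p : X × X | ∃ h : H, h • p.1 = p.2})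
    (hF : MeasurableSet {p : X × X | F p.1 p.2}) (μ : X → Measure X) (hμ : Measurable μ)
    (hprob : ∀ x, IsProbabilityMeasure (μ x)) (hpos : ∀ x, μ x {y | F x y} ≠ 0)
    (hnull : ∀ x x', F x x' → ∀ B, MeasurableSet B → B ⊆ {y | F x y} →
      (∀ (h : H) (y : X), y ∈ B → h • y ∈ B) → μ x B = 0 → μ x' B = 0) : RedPolish X F := by
  obtain ⟨ε, hε, hεp, hε1, hεn⟩ := main_grp X H hE
  let E : Setoid X := ⟨fun x y => ∃ h : H, h • x = y,
    ⟨fun x => ⟨1, one_smul H x⟩, fun {x y} ⟨h, hh⟩ => ⟨h⁻¹, by rw [← hh, inv_smul_smul]⟩,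
      fun {x y z} ⟨h, hh⟩ ⟨k, hk⟩ => ⟨k * h, by rw [mul_smul, hh, hk]⟩⟩⟩
  refine main_two E F ?_ hE hF ε hε hεp ?_ ?_ μ hμ hprob hpos ?_
  · rintro x _ ⟨h, rfl⟩
    exact hHF h x
  · intro x h0
    have h1 := hε1 x
    have h2 : ε x {y | ∃ h : H, h • x = y} = 0 := h0
    rw [h2] at h1
    exact zero_ne_one h1
  · intro x x' h B hB _ h0
    exact hεn x x' h B hB h0
  · intro x x' h B hB hsub hinv h0
    exact hnull x x' h B hB hsub (fun g y hy => hinv y (g • y) ⟨g, rfl⟩ hy) h0

end Pool.Agent.H56.MI
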