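import Pool.Agent.H56.MI.Code
set_option autoImplicit false

/-!
# H56/MI/Main: relations which are idealistic through measures
-/

namespace Pool.Agent.H56.MI

open Set MeasureTheory Pool.Agent.H93.EO ProbabilityTheory
open scoped ENNReal

variable {X : Type} [MeasurableSpace X]

theorem main_core [StandardBorelSpace X] (F : Setoid X)
    (hF : MeasurableSet {p : X × X | F p.1 p.2}) (ν : X → Measure X)
    (hνm : ∀ B, MeasurableSet B → Measurable fun x => ν x B)
    (hνf : ∀ x, IsFiniteMeasure (ν x)) (hν0 : ∀ x, ν x univ ≠ 0)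
    (hνc : ∀ x, ν x {y | F x y}ᶜ = 0) (hac : ∀ x x', F x x' → ν x' ≪ ν x) :
    ∃ (G Z : Type) (_ : TopologicalSpace G) (_ : Group G) (_ : IsTopologicalGroup G)
      (_ : PolishSpace G) (_ : TopologicalSpace Z) (_ : PolishSpace Z) (_ : MeasurableSpace Z)
      (_ : BorelSpace Z) (_ : MulAction G Z) (_ : ContinuousSMul G Z) (f : X → Z),
      Measurable f ∧ ∀ x x' : X, F x x' ↔ ∃ g : G, g • f x = f x' := by
  obtain ⟨𝔸⟩ := exists_alg X
  obtain ⟨ℓ, hℓ⟩ := exists_surjective_nat (List (ℕ × ℕ))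
  obtain ⟨κ, hκ⟩ := exists_surjective_nat (ℕ × ℚ)
  have hcl : ∀ x, MeasurableSet {y | F x y} := fun x => measurable_prodMk_left hF
  obtain ⟨G, Z, i1, i2, i3, i4, i5, i6, i7, i8, i9, i10, f, hf, hfo⟩ :=
    part3 (Ω := X) (fun x => cR 𝔸 ℓ (ν x)) (fun x => cR_isPM 𝔸 ℓ (ν x) (hν0 x))
      (fun i j => Measurable.iSup fun n =>
        continuous_abs.measurable.comp
          ((pr_meas 𝔸 ν hνm (ℓ i) (𝔸.mA n)).sub (pr_meas 𝔸 ν hνm (ℓ j) (𝔸.mA n))))
      (fun x => cA 𝔸 ℓ κ (ν x)) (fun x => rfl)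
      (fun n i => by
        cases n with
        | zero => exact MeasurableSet.univ
        | succ n =>
          exact measurableSet_lt measurable_const (pr_meas 𝔸 ν hνm (ℓ i) (𝔸.mA (κ n).1)))
  refine ⟨G, Z, i1, i2, i3, i4, i5, i6, i7, i8, i9, i10, f, hf, fun x x' => ?_⟩
  rw [← hfo x x']
  constructor
  · intro h
    exact same_of_equiv 𝔸 hℓ κ (ν x) (ν x') (hν0 x) (hν0 x') (hac x' x (F.symm h)) (hac x x' h)
  · intro h
    by_contra hcon
    have h1 := ac_of_same 𝔸 hκ (ν x) (ν x') (hν0 x) (hν0 x') h 0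
    have hp := pr_prob 𝔸 (ν x) (hν0 x) (ℓ 0)
    have h2 : ν x' {y | F x y} = 0 := by
      refine measure_mono_null ?_ (hνc x')
      intro y hy hy'
      exact hcon (F.trans hy (F.symm hy'))
    have h4 := h1 h2
    have h5 := pr_ac 𝔸 (ν x) (ℓ 0) (hνc x)
    have h6 : pr 𝔸 (ν x) (ℓ 0) univ = 0 := by
      rw [← union_compl_self {y | F x y}]
      exact measure_union_null h4 h5
    rw [measure_univ] at h6
    exact one_ne_zero h6

/-- restriction of a Markov kernel to the classes -/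
theorem exists_restr (F : Setoid X) (hF : MeasurableSet {p : X × X | F p.1 p.2})
    (μ : X → Measure X) (hμ : Measurable μ) (hprob : ∀ x, IsProbabilityMeasure (μ x)) :
    ∃ K : Kernel X X, IsFiniteKernel K ∧ ∀ x, K x = (μ x).restrict {y | F x y} := by
  let K : Kernel X X := ⟨μ, hμ⟩
  have : IsMarkovKernel K := ⟨hprob⟩
  have hm : Measurable fun x => (μ x).restrict {y | F x y} := by
    refine Measure.measurable_of_measurable_coe _ fun B hB => ?_
    have h1 : MeasurableSet {p : X × X | p.2 ∈ B ∧ F p.1 p.2} := (measurable_snd hB).inter hF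
    have h2 := Kernel.measurable_kernel_prodMk_left (κ := K) h1
    have e : (fun x => (μ x).restrict {y | F x y} B) =
        fun x => K x (Prod.mk x ⁻¹' {p : X × X | p.2 ∈ B ∧ F p.1 p.2}) := by
      funext x
      rw [Measure.restrict_apply hB]
      rfl
    rw [e]
    exact h2
  refine ⟨⟨_, hm⟩, ⟨1, ENNReal.one_lt_top, fun x => ?_⟩, fun x => rfl⟩
  have h3 : (μ x).restrict {y | F x y} univ ≤ μ x univ := Measure.restrict_le_self univ
  exact h3.trans (by rw [measure_univ])

/-- two levels -/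
theorem main_two [StandardBorelSpace X] (E F : Setoid X) (hEF : ∀ x y, E x y → F x y)
    (hE : MeasurableSet {p : X × X | E p.1 p.2}) (hF : MeasurableSet {p : X × X | F p.1 p.2})
    (ε : X → Measure X) (hε : Measurable ε) (hεp : ∀ x, IsProbabilityMeasure (ε x))
    (hεpos : ∀ x, ε x {y | E x y} ≠ 0)
    (hεnull : ∀ x x', E x x' → ∀ B, MeasurableSet B → B ⊆ {y | E x y} → ε x B = 0 → ε x' B = 0)
    (μ : X → Measure X) (hμ : Measurable μ)
    (hprob : ∀ x, IsProbabilityMeasure (μ x)) (hpos : ∀ x, μ x {y | F x y} ≠ 0)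
    (hnull : ∀ x x', F x x' → ∀ B, MeasurableSet B → B ⊆ {y | F x y} →
      (∀ y z, E y z → y ∈ B → z ∈ B) → μ x B = 0 → μ x' B = 0) :
    ∃ (G Z : Type) (_ : TopologicalSpace G) (_ : Group G) (_ : IsTopologicalGroup G)
      (_ : PolishSpace G) (_ : TopologicalSpace Z) (_ : PolishSpace Z) (_ : MeasurableSpace Z)
      (_ : BorelSpace Z) (_ : MulAction G Z) (_ : ContinuousSMul G Z) (f : X → Z),
      Measurable f ∧ ∀ x x' : X, F x x' ↔ ∃ g : G, g • f x = f x' := by
  obtain ⟨K, hKf, hK⟩ := exists_restr F hF μ hμ hprob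
  obtain ⟨L, hLf, hL⟩ := exists_restr E hE ε hε hεp
  have hclF : ∀ x, MeasurableSet {y | F x y} := fun x => measurable_prodMk_left hF
  have hclE : ∀ x, MeasurableSet {y | E x y} := fun x => measurable_prodMk_left hE
  have happ : ∀ x B, MeasurableSet B → (L ∘ₖ K) x B = ∫⁻ y, L y B ∂(K x) :=
    fun x B hB => Kernel.comp_apply' L K x hB
  have hLm : ∀ B, MeasurableSet B → Measurable fun y => L y B := fun B hB => L.measurable_coe hB
  have hLa : ∀ y B, MeasurableSet B → L y B = ε y (B ∩ {z | E y z}) := fun y B hB => by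
    rw [hL]; exact Measure.restrict_apply hB
  have hKa : ∀ x B, MeasurableSet B → K x B = μ x (B ∩ {z | F x z}) := fun y B hB => by
    rw [hK]; exact Measure.restrict_apply hB
  refine main_core F hF (fun x => (L ∘ₖ K) x) (fun B hB => (L ∘ₖ K).measurable_coe hB)
    (fun x => inferInstance) (fun x h0 => ?_) (fun x => ?_) (fun x x' h => ?_)
  · rw [happ x univ MeasurableSet.univ, lintegral_eq_zero_iff (hLm _ MeasurableSet.univ)] at h0
    have h1 : ∀ y, L y univ ≠ 0 := fun y => by
      rw [hLa y univ MeasurableSet.univ, univ_inter]; exact hεpos y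
    have h2 : K x univ = 0 := by
      have h3 : {y | ¬ (fun y => L y univ) y = (0 : X → ℝ≥0∞) y} = univ := by
        ext y
        exact ⟨fun _ => mem_univ y, fun _ => h1 y⟩
      rw [← h3]
      exact h0
    rw [hKa x univ MeasurableSet.univ, univ_inter] at h2
    exact hpos x h2
  · rw [happ x _ (hclF x).compl, lintegral_eq_zero_iff (hLm _ (hclF x).compl)]
    have h1 : K x {y | F x y}ᶜ = 0 := by
      rw [hKa x _ (hclF x).compl, compl_inter_self, measure_empty]
    have h2 : ∀ᵐ y ∂(K x), F x y := by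
      rw [ae_iff]; exact h1
    filter_upwards [h2] with y hy
    rw [Pi.zero_apply, hLa y _ (hclF x).compl]
    have : {y | F x y}ᶜ ∩ {z | E y z} = ∅ := by
      rw [eq_empty_iff_forall_notMem]
      rintro z ⟨hz, hz'⟩
      exact hz (F.trans hy (hEF _ _ hz'))
    rw [this, measure_empty]
  · refine Measure.AbsolutelyContinuous.mk fun B hB h0 => ?_
    rw [happ x B hB, lintegral_eq_zero_iff (hLm _ hB)] at h0
    rw [happ x' B hB, lintegral_eq_zero_iff (hLm _ hB)]
    have mS : MeasurableSet {y | L y B ≠ 0} := (hLm B hB (measurableSet_singleton 0)).compl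
    have mS' : MeasurableSet ({y | L y B ≠ 0} ∩ {y | F x y}) := mS.inter (hclF x)
    have h1 : μ x ({y | L y B ≠ 0} ∩ {y | F x y}) = 0 := by
      rw [← hKa x _ mS]
      exact h0
    have h2 := hnull x x' h _ mS' inter_subset_right (by
      rintro y z hyz ⟨hy, hxy⟩
      refine ⟨?_, F.trans hxy (hEF _ _ hyz)⟩
      intro hz
      apply hy
      rw [hLa y B hB]
      rw [hLa z B hB] at hz
      have e : {w | E z w} = {w | E y w} := by
        ext w
        exact ⟨fun h1 => E.trans hyz h1, fun h1 => E.trans (E.symm hyz) h1⟩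
      have h3 := hεnull z y (E.symm hyz) _ (hB.inter (hclE z)) inter_subset_right hz
      rw [e] at h3
      exact h3) h1
    have e2 : {y | F x y} = {y | F x' y} := by
      ext w
      exact ⟨fun h1 => F.trans (F.symm h) h1, fun h1 => F.trans h h1⟩
    rw [e2, ← hKa x' _ mS] at h2
    have h4 : ∀ᵐ y ∂(K x'), ¬ (L y B ≠ 0) := by
      rw [ae_iff]
      simpa using h2
    filter_upwards [h4] with y hy
    exact not_not.1 hy

/-- the points with the first `n` coordinates deleted -/
def zz (n : ℕ) (x : ℕ → ℕ → Bool) : ℕ → ℕ → Bool := fun k => if k < n then fun _ => false else x k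

theorem zz_meas (n : ℕ) : Measurable (zz n) := by
  refine measurable_pi_iff.2 fun k => ?_
  by_cases h : k < n
  · have : (fun x => zz n x k) = fun _ => fun _ => false := by
      funext x; simp [zz, h]
    rw [this]; exact measurable_const
  · have : (fun x => zz n x k) = fun x => x k := by
      funext x; simp [zz, h]
    rw [this]; exact measurable_pi_apply k

/-- the measures -/
noncomputable def mm (x : ℕ → ℕ → Bool) : Measure (ℕ → ℕ → Bool) :=
  Measure.sum fun n => ((1 / 2 : ℝ≥0∞) ^ (n + 1)) • Measure.dirac (zz n x)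

theorem mm_apply (x : ℕ → ℕ → Bool) {B : Set (ℕ → ℕ → Bool)} (hB : MeasurableSet B) :
    mm x B = ∑' n, (1 / 2 : ℝ≥0∞) ^ (n + 1) * B.indicator 1 (zz n x) := by
  rw [mm, Measure.sum_apply _ hB]
  refine tsum_congr fun n => ?_
  rw [Measure.smul_apply, Measure.dirac_apply' _ hB, smul_eq_mul]

theorem sum_half : ∑' n : ℕ, (1 / 2 : ℝ≥0∞) ^ (n + 1) = 1 := by
  have : ∀ n : ℕ, (1 / 2 : ℝ≥0∞) ^ (n + 1) = (1 / 2) * (1 / 2) ^ n := fun n => pow_succ' _ _
  simp_rw [this]
  rw [ENNReal.tsum_mul_left, ENNReal.tsum_geometric, one_div, ENNReal.one_sub_inv_two, inv_inv]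
  exact ENNReal.inv_mul_cancel (by norm_num) (by norm_num)

theorem mm_prob (x : ℕ → ℕ → Bool) : IsProbabilityMeasure (mm x) := by
  constructor
  rw [mm_apply x MeasurableSet.univ]
  simp only [indicator_univ, Pi.one_apply, mul_one]
  exact sum_half

theorem mm_meas : Measurable mm := by
  refine Measure.measurable_of_measurable_coe _ fun B hB => ?_
  have : (fun x => mm x B) = fun x => ∑' n, (1 / 2 : ℝ≥0∞) ^ (n + 1) * B.indicator 1 (zz n x) := by
    funext x; exact mm_apply x hB
  rw [this]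
  refine Measurable.ennreal_tsum fun n => Measurable.const_mul ?_ _
  exact (measurable_one.indicator hB).comp (zz_meas n)

/-- `E_1` -/
def E1 (x y : ℕ → ℕ → Bool) : Prop := ∃ m, ∀ n, m ≤ n → x n = y n

theorem zz_rel (n : ℕ) (x : ℕ → ℕ → Bool) : ∃ m, ∀ k, m ≤ k → x k = zz n x k :=
  ⟨n, fun k hk => by simp [zz, not_lt.2 hk]⟩

theorem mm_null (x : ℕ → ℕ → Bool) {B : Set (ℕ → ℕ → Bool)} (hB : MeasurableSet B) :
    mm x B = 0 ↔ ∀ n, zz n x ∉ B := by
  rw [mm_apply x hB, ENNReal.tsum_eq_zero]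
  refine forall_congr' fun n => ?_
  by_cases h : zz n x ∈ B
  · simp [h]
  · simp [h]

theorem zz_eq {x y : ℕ → ℕ → Bool} {m : ℕ} (h : ∀ n, m ≤ n → x n = y n) {n : ℕ} (hn : m ≤ n) :
    zz n x = zz n y := by
  funext k
  unfold zz
  split_ifs with hk
  · rfl
  · exact h k (hn.trans (not_lt.1 hk))

theorem main_E1 : ∃ μ : (ℕ → ℕ → Bool) → Measure (ℕ → ℕ → Bool), Measurable μ ∧
    (∀ x, IsProbabilityMeasure (μ x)) ∧ (∀ x, ∀ᵐ y ∂(μ x), ∃ m, ∀ n, m ≤ n → x n = y n) ∧
    ∀ x y, (∃ m, ∀ n, m ≤ n → x n = y n) → ¬ (μ x).MutuallySingular (μ y) ∧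
      ∃ S : Set (ℕ → ℕ → Bool), S.Finite ∧
        ∀ B, MeasurableSet B → Disjoint B S → (μ x B = 0 ↔ μ y B = 0) := by
  refine ⟨mm, mm_meas, mm_prob, fun x => ?_, ?_⟩
  · have hms : MeasurableSet {y : ℕ → ℕ → Bool | ∃ m, ∀ n, m ≤ n → x n = y n} := by
      have e : {y : ℕ → ℕ → Bool | ∃ m, ∀ n, m ≤ n → x n = y n} =
          ⋃ m, ⋂ n, {y | m ≤ n → x n = y n} := by
        ext y; simp
      rw [e]
      refine MeasurableSet.iUnion fun m => MeasurableSet.iInter fun n => ?_
      by_cases h : m ≤ n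
      · have : {y : ℕ → ℕ → Bool | m ≤ n → x n = y n} = (fun y => y n) ⁻¹' {x n} := by
          ext y; simp [h, eq_comm]
        rw [this]
        exact measurable_pi_apply n (measurableSet_singleton _)
      · have : {y : ℕ → ℕ → Bool | m ≤ n → x n = y n} = univ := by
          ext y; simp [h]
        rw [this]; exact MeasurableSet.univ
    rw [ae_iff]
    have e2 : {y : ℕ → ℕ → Bool | ¬ ∃ m, ∀ n, m ≤ n → x n = y n} =
        {y : ℕ → ℕ → Bool | ∃ m, ∀ n, m ≤ n → x n = y n}ᶜ := rfl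
    rw [e2, mm_null x hms.compl]
    intro n hn
    exact hn (zz_rel n x)
  · rintro x y ⟨m, hm⟩
    constructor
    · rintro ⟨s, hs, h1, h2⟩
      rw [mm_null x hs] at h1
      rw [mm_null y hs.compl] at h2
      refine h2 m fun h3 => h1 m ?_
      rw [zz_eq hm le_rfl]
      exact h3
    · refine ⟨(fun n => zz n x) '' {n | n < m} ∪ (fun n => zz n y) '' {n | n < m},
        ((finite_lt_nat m).image _).union ((finite_lt_nat m).image _), fun B hB hd => ?_⟩
      rw [mm_null x hB, mm_null y hB]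
      have hx : ∀ n, n < m → zz n x ∉ B := fun n hn h =>
        (disjoint_left.1 hd h) (Or.inl ⟨n, hn, rfl⟩)
      have hy : ∀ n, n < m → zz n y ∉ B := fun n hn h =>
        (disjoint_left.1 hd h) (Or.inr ⟨n, hn, rfl⟩)
      constructor
      · intro h n
        by_cases hn : n < m
        · exact hy n hn
        · rw [← zz_eq hm (not_lt.1 hn)]; exact h n
      · intro h n
        by_cases hn : n < m
        · exact hx n hn
        · rw [zz_eq hm (not_lt.1 hn)]; exact h n

end Pool.Agent.H56.MI
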